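import Mathlib
import Pool.Agent.helper68.S2.Curv
import Pool.Agent.helper68.S2.GB
import Pool.Agent.helper9.S2.Norms

/-!
# Removal of the cutoffs

A solution of the system with cutoffs whose initial value satisfies the flow relation is a solution
of the flow, provided the a priori bounds for the flow keep the cutoffs inactive.
-/

set_option autoImplicit false

open MeasureTheory Metric Set Filter
open scoped ContDiff Topology

namespace Pool.Agent.helper68.S2

namespace Spec2E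

theorem cmp_eq_of {φ ψ : ℝ → ℝ} {s : Set ℝ} (hφ : ContDiff ℝ ∞ φ) (hψ : ContDiffOn ℝ ∞ ψ s)
    {f : SS} (h : ∀ p, f p ∈ s) (h' : ∀ p, φ (f p) = ψ (f p)) : cmp φ f = cmp ψ f := by
  apply ssext
  intro p
  rw [cmp_apply (s := univ) hφ.contDiffOn f (fun _ => mem_univ _), cmp_apply hψ f h, h' p]

theorem Gc_eq {χ θ : ℝ → ℝ} (hχ : Nice χ) (hθ : Nice θ) {u F : SS}
    (hF : ∀ p, χ (F p) = F p) (hu : ∀ p, θ (u p) = u p) :
    Gc χ θ u F = (ar u / (4 * Real.pi)) • (F ^ 2 * Ex (-2) u) := by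
  have h1 : cmp (fun y => Real.exp (2 * θ y)) u = Ex 2 u :=
    cmp_eq_of (Real.contDiff_exp.comp (contDiff_const.mul hθ.1)) (contDiffOn_exp 2 univ)
      (fun _ => mem_univ _) (fun p => by show Real.exp (_ * θ (u p)) = Real.exp (_ * u p); rw [hu p])
  have h2 : cmp (fun y => Real.exp (-2 * θ y)) u = Ex (-2) u :=
    cmp_eq_of (Real.contDiff_exp.comp (contDiff_const.mul hθ.1)) (contDiffOn_exp (-2) univ)
      (fun _ => mem_univ _) (fun p => by show Real.exp (_ * θ (u p)) = Real.exp (_ * u p); rw [hu p])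
  have h3 : cmp (fun y => χ y ^ 2) F = F ^ 2 := by
    apply ssext
    intro p
    rw [cmp_apply (s := univ) (hχ.1.pow 2).contDiffOn F (fun _ => mem_univ _), ss_pow, hF p]
  unfold Gc
  rw [h1, h2, h3]
  rfl

theorem Bc_eq {χ θ : ℝ → ℝ} (hχ : Nice χ) (hθ : Nice θ) {u F : SS}
    (hF : ∀ p, χ (F p) = F p) (hu : ∀ p, θ (u p) = u p) :
    Bc χ θ u F = (2 : ℝ) • F ^ 2 - (2 * av u F) • F := by
  have h1 : cmp (fun y => Real.exp (2 * θ y)) u = Ex 2 u :=
    cmp_eq_of (Real.contDiff_exp.comp (contDiff_const.mul hθ.1)) (contDiffOn_exp 2 univ)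
      (fun _ => mem_univ _) (fun p => by show Real.exp (_ * θ (u p)) = Real.exp (_ * u p); rw [hu p])
  have h2 : cmp χ F = F := by
    apply ssext
    intro p
    rw [cmp_apply (s := univ) hχ.1.contDiffOn F (fun _ => mem_univ _), hF p]
  have h3 : cmp (fun y => χ y ^ 2) F = F ^ 2 := by
    apply ssext
    intro p
    rw [cmp_apply (s := univ) (hχ.1.pow 2).contDiffOn F (fun _ => mem_univ _), ss_pow, hF p]
  unfold Bc
  rw [h1, h2, h3]
  rfl

/-- derivative of the area along a curve with velocity `F - 1` -/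
theorem dar' {J : Set ℝ} {u F : ℝ → SS} (cu : CC J u) (cF : CC J F)
    (du : CD J u (fun t => F t - 1)) (hJ : Convex ℝ J) {t : ℝ} (ht : t ∈ J) :
    HasDerivWithinAt (fun s => ar (u s)) (2 * ar (u t) * (av (u t) (F t) - 1)) J t := by
  have h1 := I_deriv hJ ((du.Ex 2) 0)
    (v := fun t => (2 : ℝ) • (Ex 2 (u t) * (F t - 1))) ((((cu.Ex 2).mul
      (cF.sub (CC.const 1))).smul continuousOn_const) 0) ht
  refine h1.congr_deriv ?_
  have hA := (ar_pos (u t)).ne'
  unfold av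
  rw [map_smul, mul_sub, map_sub, mul_one, smul_eq_mul]
  rw [mul_comm (Ex 2 (u t)) (F t)]
  change 2 * (I (F t * Ex 2 (u t)) - ar (u t)) = _
  field_simp

theorem dlam' {J : Set ℝ} {u F : ℝ → SS} (cu : CC J u) (cF : CC J F)
    (du : CD J u (fun t => F t - 1)) (hJ : Convex ℝ J) {t : ℝ} (ht : t ∈ J) :
    HasDerivWithinAt (fun s => lam (u s)) (-2 * lam (u t) * (av (u t) (F t) - 1)) J t := by
  have h1 := (hasDerivWithinAt_const t J (4 * Real.pi)).div (dar' cu cF du hJ ht) (ar_pos (u t)).ne'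
  refine h1.congr_deriv ?_
  have hA := (ar_pos (u t)).ne'
  unfold lam
  field_simp
  ring

theorem dP' {J : Set ℝ} {u F : ℝ → SS} (du : CD J u (fun t => F t - 1)) :
    CD J (fun t => Pc (u t)) (fun t => -Lap (F t)) := by
  refine ((CD.const 1).sub du.Lap).congr (fun _ _ => rfl) fun t _ => ?_
  rw [map_sub]
  have : Lap (1 : SS) = 0 := by
    rw [Lap_eq]
    simp
  rw [this]
  ring

/-- the defect in the flow relation -/
noncomputable def Wd (u F : SS) : SS := F * Pc u - lam u • Ex 2 u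

/-- the rate of the defect -/
noncomputable def rate (u F : SS) : SS :=
  (lam u)⁻¹ • (F * Lap F * Ex (-2) u) + (2 : ℝ) • F - (2 * av u F) • (1 : SS)

theorem Ex_mul_Ex_neg (u : SS) (p : Sph) : Ex 2 u p * Ex (-2) u p = 1 := by
  rw [Ex_apply, Ex_apply, ← Real.exp_add]
  simp

/-- the defect satisfies a linear ordinary differential equation where the cutoffs are inactive -/
theorem dWd {J : Set ℝ} {u F : ℝ → SS} (cu : CC J u) (cF : CC J F)
    (du : CD J u (fun t => F t - 1)) {G : ℝ → SS} (dF : CD J F G) (hJ : Convex ℝ J) {t : ℝ}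
    (ht : t ∈ J)
    (hG : G t = ((ar (u t) / (4 * Real.pi)) • (F t ^ 2 * Ex (-2) (u t))) * Lap (F t)
      + ((2 : ℝ) • F t ^ 2 - (2 * av (u t) (F t)) • F t)) (p : Sph) :
    HasDerivWithinAt (fun s => Wd (u s) (F s) p) (rate (u t) (F t) p * Wd (u t) (F t) p) J t := by
  have h1 : CD J (fun t => F t * Pc (u t) - lam (u t) • Ex 2 (u t)) _ :=
    (dF.mul (dP' du)).sub (CD.smul (fun t ht => dlam' cu cF du hJ ht) (du.Ex 2))
  have h2 := (h1 0) t ht p
  refine HasDerivWithinAt.congr_deriv (f' := _) h2 ?_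
  have hA := (ar_pos (u t)).ne'
  have hl := (lam_pos (u t)).ne'
  have hpi := Real.pi_pos.ne'
  have hAl : ar (u t) / (4 * Real.pi) = (lam (u t))⁻¹ := by
    unfold lam
    rw [inv_div]
  rw [hG, hAl]
  have hE := Ex_mul_Ex_neg (u t) p
  unfold rate Wd
  simp only [ss_add, ss_mul, ss_smul, ss_sub, ss_neg, ss_one, ss_pow]
  set e := Ex 2 (u t) p
  set e' := Ex (-2) (u t) p
  set l := lam (u t)
  set f := F t p
  set P := Pc (u t) p
  set L := Lap (F t) p
  set a := av (u t) (F t)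
  have h3 : l⁻¹ * l = 1 := inv_mul_cancel₀ hl
  linear_combination (f * L) * (l⁻¹ * l) * hE + (f * L) * h3

theorem continuous_rate {J : Set ℝ} {u F : ℝ → SS} (cu : CC J u) (cF : CC J F) :
    CC J (fun t => rate (u t) (F t)) := by
  have har : ContinuousOn (fun t => ar (u t)) J := I_cont ((cu.Ex 2) 0)
  have hlam : ContinuousOn (fun t => lam (u t)) J :=
    continuousOn_const.div har fun t _ => (ar_pos (u t)).ne'
  have hav : ContinuousOn (fun t => av (u t) (F t)) J :=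
    (I_cont ((cF.mul (cu.Ex 2)) 0)).div har fun t _ => (ar_pos (u t)).ne'
  exact ((((cF.mul cF.Lap).mul (cu.Ex (-2))).smul
    (hlam.inv₀ fun t _ => (lam_pos (u t)).ne')).add (cF.smul continuousOn_const)).sub
    ((CC.const 1).smul (continuousOn_const.mul hav))

/-- as long as the cutoffs are inactive the defect stays zero -/
theorem Wd_zero {χ θ : ℝ → ℝ} (hχ : Nice χ) (hθ : Nice θ) {u F : ℝ → SS} (cu : CC (Ici 0) u)
    (cF : CC (Ici 0) F) (du : CD (Ici 0) u (fun t => F t - 1))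
    (dF : CD (Ici 0) F (fun t => Gc χ θ (u t) (F t) * Lap (F t) + Bc χ θ (u t) (F t)))
    {T : ℝ} (hF : ∀ t ∈ Icc (0 : ℝ) T, ∀ p, χ (F t p) = F t p)
    (hu : ∀ t ∈ Icc (0 : ℝ) T, ∀ p, θ (u t p) = u t p) (h0 : ∀ p, Wd (u 0) (F 0) p = 0) :
    ∀ t ∈ Icc (0 : ℝ) T, ∀ p, Wd (u t) (F t) p = 0 := by
  intro t ht p
  have hsub : Icc (0 : ℝ) T ⊆ Ici 0 := fun s hs => hs.1
  have hder : ∀ s ∈ Icc (0 : ℝ) T, HasDerivWithinAt (fun s => Wd (u s) (F s) p)
      (rate (u s) (F s) p * Wd (u s) (F s) p) (Ici 0) s := fun s hs =>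
    dWd cu cF du dF (convex_Ici 0) (hsub hs)
      (by rw [Gc_eq hχ hθ (hF s hs) (hu s hs), Bc_eq hχ hθ (hF s hs) (hu s hs)]) p
  have hcr : ContinuousOn (fun s => rate (u s) (F s) p) (Icc 0 T) := by
    have h1 : ContinuousOn (fun z : ℝ × Sph => rate (u z.1) (F z.1) z.2) (Ici (0 : ℝ) ×ˢ univ) :=
      (continuous_rate cu cF) 0
    exact (h1.comp (f := fun s : ℝ => (s, p)) (by fun_prop) (fun s hs => ⟨hs, mem_univ _⟩)).mono
      hsub
  obtain ⟨K, hK⟩ := isCompact_Icc.exists_bound_of_continuousOn hcr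
  have key := norm_le_gronwallBound_of_norm_deriv_right_le (f := fun s => Wd (u s) (F s) p)
    (f' := fun s => rate (u s) (F s) p * Wd (u s) (F s) p) (δ := 0) (K := K) (ε := 0) (a := 0)
    (b := T) (fun s hs => ((hder s hs).continuousWithinAt).mono hsub)
    (fun s hs => (hder s (Ico_subset_Icc_self hs)).mono (Ici_subset_Ici.mpr hs.1))
    (by simp [h0 p])
    (fun s hs => by
      rw [norm_mul, add_zero]
      exact mul_le_mul_of_nonneg_right (hK s (Ico_subset_Icc_self hs)) (norm_nonneg _)) t ht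
  rw [gronwallBound_ε0_δ0] at key
  exact norm_le_zero_iff.mp key

theorem isFlow_of {u F : ℝ → SS} (cu : CC (Ici 0) u)
    (cF : CC (Ici 0) F) (du : CD (Ici 0) u (fun t => F t - 1)) {T : ℝ}
    (hF : ∀ t ∈ Icc (0 : ℝ) T, ∀ p, 0 < F t p) (hW : ∀ t ∈ Icc (0 : ℝ) T, ∀ p, Wd (u t) (F t) p = 0) :
    IsFlow (Icc 0 T) u F := by
  have hsub : Icc (0 : ℝ) T ⊆ Ici 0 := fun s hs => hs.1
  refine ⟨cu.mono hsub, cF.mono hsub, du.mono hsub, hF, fun t ht => ?_⟩
  apply ssext
  intro p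
  have := hW t ht p
  unfold Wd at this
  rw [ss_sub] at this
  linarith

theorem exit_cut {χ θ : ℝ → ℝ} (hχ : Nice χ) (hθ : Nice θ) {c C : ℝ} (hc : 0 < c) (hcC : c ≤ C)
    (hχ' : ∀ y ∈ Icc (c / 2) (C + 1), χ y = y) (hθ' : ∀ y ∈ Icc (-(C + 1)) (C + 1), θ y = y)
    {a : SS} (ha : ∀ p, 0 < Pc a p)
    (hb : ∀ (T : ℝ) (u F : ℝ → SS), IsFlow (Icc 0 T) u F → u 0 = a → ∀ t ∈ Icc (0 : ℝ) T, ∀ p,
      |u t p| ≤ C ∧ gr (u t) p ≤ C ∧ c ≤ F t p ∧ F t p ≤ C ∧ c ≤ Pc (u t) p ∧ Pc (u t) p ≤ C)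
    {u F : ℝ → SS} (cu : CC (Ici 0) u) (cF : CC (Ici 0) F) (du : CD (Ici 0) u (fun t => F t - 1))
    (dF : CD (Ici 0) F (fun t => Gc χ θ (u t) (F t) * Lap (F t) + Bc χ θ (u t) (F t)))
    (hu0 : u 0 = a) (hF0 : F 0 = Fq a) : IsFlow (Ici 0) u F := by
  -- the relation at time zero
  have hW0 : ∀ p, Wd (u 0) (F 0) p = 0 := by
    intro p
    rw [hu0, hF0]
    unfold Wd Fq
    have h1 := ha p
    simp only [ss_sub, ss_mul, ss_smul, Inv_apply ha]
    field_simp
    ring
  have hF0pos : ∀ p, 0 < F 0 p := by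
    intro p
    rw [hF0]
    unfold Fq
    rw [ss_smul, ss_mul]
    exact mul_pos (lam_pos a) (mul_pos (Ex_pos _ _ _) (Inv_pos ha p))
  -- good times
  set good : ℝ → Prop := fun t => ∀ p, c ≤ F t p ∧ Wd (u t) (F t) p = 0 with hgood
  have hcW : CC (Ici 0) (fun t => Wd (u t) (F t)) := by
    have har : ContinuousOn (fun t => ar (u t)) (Ici 0) := I_cont ((cu.Ex 2) 0)
    have hlam : ContinuousOn (fun t => lam (u t)) (Ici 0) :=
      continuousOn_const.div har fun t _ => (ar_pos (u t)).ne'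
    exact (cF.mul ((CC.const 1).sub cu.Lap)).sub ((cu.Ex 2).smul hlam)
  have hflow : ∀ T, (∀ t ∈ Icc (0 : ℝ) T, good t) → IsFlow (Icc 0 T) u F := fun T h =>
    isFlow_of cu cF du (fun t ht p => hc.trans_le (h t ht p).1) (fun t ht p => (h t ht p).2)
  have hg0 : good 0 := by
    have h1 : IsFlow (Icc 0 0) u F := isFlow_of cu cF du
      (fun t ht p => by
        have : t = 0 := le_antisymm ht.2 ht.1
        rw [this]; exact hF0pos p)
      (fun t ht p => by
        have : t = 0 := le_antisymm ht.2 ht.1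
        rw [this]; exact hW0 p)
    intro p
    exact ⟨(hb 0 u F h1 hu0 0 ⟨le_rfl, le_rfl⟩ p).2.2.1, hW0 p⟩
  -- extension beyond a good time
  have hext : ∀ T, 0 ≤ T → (∀ t ∈ Icc (0 : ℝ) T, good t) →
      ∃ δ > 0, ∀ t ∈ Icc (0 : ℝ) (T + δ), good t := by
    intro T hT hg
    have h1 := hflow T hg
    have hbT := hb T u F h1 hu0
    have hcu : ContinuousOn (fun z : ℝ × Sph => u z.1 z.2) (Ici (0 : ℝ) ×ˢ univ) := cu 0
    have hcF : ContinuousOn (fun z : ℝ × Sph => F z.1 z.2) (Ici (0 : ℝ) ×ˢ univ) := cF 0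
    have e1 := unif_cont (u := fun t p => u t p) hcu (show T ∈ Ici (0 : ℝ) from hT)
      (ε := 1) one_pos
    have e2 := unif_cont (u := fun t p => F t p) hcF (show T ∈ Ici (0 : ℝ) from hT)
      (ε := min (c / 2) 1) (by positivity)
    have e3 := e1.and e2
    rw [eventually_nhdsWithin_iff, Metric.eventually_nhds_iff_ball] at e3
    obtain ⟨δ, hδ, e3⟩ := e3
    have hbd : ∀ t ∈ Icc (0 : ℝ) (T + δ / 2), ∀ p, |u t p| ≤ C + 1 ∧ c / 2 ≤ F t p ∧
        F t p ≤ C + 1 := by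
      intro t ht p
      rcases le_or_gt t T with htT | htT
      · obtain ⟨b1, _, b2, b3, _⟩ := hbT t ⟨ht.1, htT⟩ p
        exact ⟨by linarith, by linarith, by linarith⟩
      · have hball : t ∈ ball T δ := by
          rw [mem_ball, Real.dist_eq, abs_lt]
          constructor <;> linarith [ht.2]
        obtain ⟨f1, f2⟩ := e3 t hball ht.1
        obtain ⟨b1, _, b2, b3, _⟩ := hbT T ⟨hT, le_rfl⟩ p
        have g1 := abs_lt.mp (f1 p)
        have g2 := abs_lt.mp ((f2 p).trans_le (min_le_left _ _))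
        have g3 := abs_lt.mp ((f2 p).trans_le (min_le_right _ _))
        have g4 := abs_le.mp b1
        refine ⟨abs_le.mpr ⟨by linarith, by linarith⟩, by linarith, by linarith⟩
    have hW : ∀ t ∈ Icc (0 : ℝ) (T + δ / 2), ∀ p, Wd (u t) (F t) p = 0 :=
      Wd_zero hχ hθ cu cF du dF (fun t ht p => hχ' _ ⟨(hbd t ht p).2.1, (hbd t ht p).2.2⟩)
        (fun t ht p => hθ' _ ⟨by linarith [(abs_le.mp (hbd t ht p).1).1],
          (abs_le.mp (hbd t ht p).1).2⟩) hW0
    have h2 : IsFlow (Icc 0 (T + δ / 2)) u F := isFlow_of cu cF du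
      (fun t ht p => by linarith [(hbd t ht p).2.1]) hW
    refine ⟨δ / 2, by positivity, fun t ht p => ⟨?_, hW t ht p⟩⟩
    exact (hb _ u F h2 hu0 t ht p).2.2.1
  -- all times are good
  have hall : ∀ t, 0 ≤ t → good t := by
    by_contra hcon
    push Not at hcon
    obtain ⟨t1, ht1, hbad⟩ := hcon
    set S : Set ℝ := {t | 0 ≤ t ∧ ¬ good t} with hS
    have hSne : S.Nonempty := ⟨t1, ht1, hbad⟩
    have hSbdd : BddBelow S := ⟨0, fun t ht => ht.1⟩
    set T := sInf S with hT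
    have hT0 : 0 ≤ T := le_csInf hSne fun t ht => ht.1
    have hlt : ∀ t, 0 ≤ t → t < T → good t := by
      intro t ht0 htT
      by_contra hc'
      exact absurd (csInf_le hSbdd (show t ∈ S from ⟨ht0, hc'⟩)) (not_le.mpr htT)
    have hgT : good T := by
      rcases eq_or_lt_of_le hT0 with h | h
      · rw [← h]; exact hg0
      · intro p
        have hne : (𝓝[Ico 0 T] T).NeBot := by
          rw [← mem_closure_iff_nhdsWithin_neBot, closure_Ico h.ne]
          exact ⟨h.le, le_rfl⟩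
        have hcF' : ContinuousWithinAt (fun s => F s p) (Ico 0 T) T := by
          have h1 : ContinuousOn (fun z : ℝ × Sph => F z.1 z.2) (Ici (0 : ℝ) ×ˢ univ) := cF 0
          have h2 : ContinuousOn (fun s => F s p) (Ici 0) :=
            h1.comp (f := fun s : ℝ => (s, p)) (by fun_prop) (fun s hs => ⟨hs, mem_univ _⟩)
          exact (h2 T hT0).mono fun s hs => hs.1
        have hcW' : ContinuousWithinAt (fun s => Wd (u s) (F s) p) (Ico 0 T) T := by
          have h1 : ContinuousOn (fun z : ℝ × Sph => Wd (u z.1) (F z.1) z.2)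
            (Ici (0 : ℝ) ×ˢ univ) := hcW 0
          have h2 : ContinuousOn (fun s => Wd (u s) (F s) p) (Ici 0) :=
            h1.comp (f := fun s : ℝ => (s, p)) (by fun_prop) (fun s hs => ⟨hs, mem_univ _⟩)
          exact (h2 T hT0).mono fun s hs => hs.1
        constructor
        · refine ge_of_tendsto hcF' ?_
          filter_upwards [self_mem_nhdsWithin] with s hs
          exact (hlt s hs.1 hs.2 p).1
        · have h3 : Tendsto (fun s => Wd (u s) (F s) p) (𝓝[Ico 0 T] T) (𝓝 0) := by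
            refine tendsto_const_nhds.congr' ?_
            filter_upwards [self_mem_nhdsWithin] with s hs
            exact ((hlt s hs.1 hs.2 p).2).symm
          exact tendsto_nhds_unique hcW' h3
    obtain ⟨δ, hδ, hgδ⟩ := hext T hT0 fun t ht => by
      rcases eq_or_lt_of_le ht.2 with h | h
      · rw [h]; exact hgT
      · exact hlt t ht.1 h
    obtain ⟨s, hsS, hsT⟩ := exists_lt_of_csInf_lt hSne (show sInf S < T + δ by linarith)
    exact hsS.2 (hgδ s ⟨hsS.1, hsT.le⟩)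
  refine ⟨cu, cF, du, fun t ht p => hc.trans_le (hall t ht p).1, fun t ht => ?_⟩
  exact (hflow t (fun s hs => hall s hs.1)).eq t ⟨ht, le_rfl⟩

end Spec2E

end Pool.Agent.helper68.S2
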